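import Pool.Agent.H121.MY.Iface
import Pool.Agent.H410.Y987.Troot
import Pool.Agent.H168.Y987.Op
import Pool.Graph.R_seed8.TH369.AN.RES

/-! Project MY of helper121: the sign of the bonds of a tree is irrelevant. -/

set_option autoImplicit false

open scoped BigOperators InnerProductSpace Topology
open Filter MeasureTheory

namespace Pool.Agent.H199.MY

open Pool.Agent.Y662.TR (LL Cf Mw dv hu clp lmk lmk_apply ll_ext ll_summable dv_apply sub_coord
  smul_coord)
open Pool.Agent.TH369.AN (Rz rz_eq rz_uniq)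
open Pool.Agent.H987.Z (Rs Gr Fr gZ HV)
open Pool.Agent.H987.Y

/-- conjugation by signs does not change the diagonal Green function -/
theorem gr_sign (h1 : S_op) {ι : Type} {k k' : ι → ι → ℝ} {h h' : ℝ} (hk : Ker h k)
    (hk' : Ker h' k') (s : ι → ℝ) (hs : ∀ x, s x * s x = 1)
    (hkk : ∀ x y, k' x y = s x * s y * k x y) (z : ℂ) (hz : z.im ≠ 0) (p : ι) :
    Gr (Op k') z p p = Gr (Op k) z p p := by
  obtain ⟨a1, -, a3, -⟩ := h1 ι k h hk
  obtain ⟨b1, -, b3, -⟩ := h1 ι k' h' hk'
  obtain ⟨φ, hφ⟩ : ∃ φ, φ = Rz (Op k) z (dv p) := ⟨_, rfl⟩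
  have hφ2 : Op k φ - z • φ = dv p := by
    rw [hφ]
    exact rz_eq _ a3.sa z hz _
  have hsn : ∀ x, |s x| = 1 := by
    intro x
    have := hs x
    have h2 : |s x| * |s x| = 1 := by rw [← abs_mul, this, abs_one]
    nlinarith [abs_nonneg (s x)]
  have hsum : Summable fun x : ι => ‖((s x * s p : ℝ) : ℂ) * φ x‖ ^ 2 := by
    have : (fun x : ι => ‖((s x * s p : ℝ) : ℂ) * φ x‖ ^ 2) = fun x => ‖φ x‖ ^ 2 := by
      funext x
      rw [norm_mul, Complex.norm_real, Real.norm_eq_abs, abs_mul, hsn, hsn, one_mul, one_mul]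
    rw [this]
    exact ll_summable φ
  have key : Op k' (lmk (fun x => ((s x * s p : ℝ) : ℂ) * φ x) hsum) -
      z • lmk (fun x => ((s x * s p : ℝ) : ℂ) * φ x) hsum = dv p := by
    apply ll_ext
    intro w
    rw [sub_coord, smul_coord, (b1 _ w).2]
    have h2 : (∑' v, ((k' w v : ℝ) : ℂ) * (lmk (fun x => ((s x * s p : ℝ) : ℂ) * φ x) hsum) v) =
        ((s w * s p : ℝ) : ℂ) * Op k φ w := by
      rw [(a1 φ w).2, ← tsum_mul_left]
      refine tsum_congr fun v => ?_
      rw [lmk_apply, hkk]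
      have e : ((s w * s v * k w v : ℝ) : ℂ) * (((s v * s p : ℝ) : ℂ) * φ v) =
          ((s v * s v : ℝ) : ℂ) * (((s w * s p : ℝ) : ℂ) * (((k w v : ℝ) : ℂ) * φ v)) := by
        push_cast
        ring
      rw [e, hs v]
      push_cast
      ring
    rw [h2, lmk_apply]
    have h3 : (Op k φ - z • φ : LL ι) w = dv p w := by rw [hφ2]
    rw [sub_coord, smul_coord, dv_apply] at h3
    have h4 : ((s w * s p : ℝ) : ℂ) * Op k φ w - z * (((s w * s p : ℝ) : ℂ) * φ w) =
        ((s w * s p : ℝ) : ℂ) * (Op k φ w - z * φ w) := by ring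
    rw [h4, h3, dv_apply]
    by_cases hw : w = p
    · rw [if_pos hw, hw, hs p]
      push_cast
      ring
    · rw [if_neg hw, mul_zero]
  have h4 := rz_uniq _ b3.sa z hz _ _ key
  show Rz (Op k') z (dv p) p = Rz (Op k) z (dv p) p
  rw [← h4, ← hφ, lmk_apply, hs p]
  push_cast
  ring

/-- the sign of a vertex -/
def sg {X : Type} {n : ℕ} (v : Vt X n) : ℝ := (-1) ^ v.1.length

theorem sg_sq {X : Type} {n : ℕ} (v : Vt X n) : sg v * sg v = 1 := by
  unfold sg
  rw [← mul_pow]
  norm_num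

theorem bnd_sg {X : Type} {n : ℕ} (f : Bool) (o : X) (v v' : Vt X n) :
    -bnd f o v v' = sg v * sg v' * bnd f o v v' := by
  unfold bnd
  split_ifs with h
  · obtain ⟨-, j, hj, -⟩ := h
    have : sg v' = - sg v := by
      unfold sg
      rw [hj, List.length_cons, pow_succ]
      ring
    rw [this]
    have := sg_sq v
    linear_combination this
  · ring

open Classical in
theorem kB_sg {X Ω : Type} {n : ℕ} (k : Ω → X → X → ℝ) (f : Bool) (o : X) (a : ℝ)
    (W : List (Ix X n) → Ω) (v v' : Vt X n) :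
    kB k f o (-a) W v v' = sg v * sg v' * kB k f o a W v v' := by
  unfold kB
  have h1 := bnd_sg f o v v'
  have h2 := bnd_sg f o v' v
  have h3 : (if v.1 = v'.1 then k (W v.1) v.2 v'.2 else 0) =
      sg v * sg v' * (if v.1 = v'.1 then k (W v.1) v.2 v'.2 else 0) := by
    split_ifs with h
    · have : sg v' = sg v := by unfold sg; rw [h]
      rw [this, sg_sq, one_mul]
    · ring
  linear_combination h3 + a * h1 + a * h2

/-- MY-G -/
theorem gauge : Pool.Agent.H121.MY.S_gauge := by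
  intro X Ω n k h hk f o a W z hz
  have hop : S_op := Pool.Agent.H168.Y987.op
  have htr := Pool.Agent.H410.Y987.troot hop
  have k1 := (htr X Ω n k h hk f o a W).1
  have k2 := (htr X Ω n k h hk f o (-a) W).1
  exact gr_sign hop k1 k2 sg sg_sq (kB_sg k f o a W) z hz ([], o)

end Pool.Agent.H199.MY
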